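import Mathlib

/-! Stalks of an integral scheme as subrings of its function field. -/

open AlgebraicGeometry CategoryTheory TopologicalSpace

universe u

namespace MP55c1e7

namespace DS

/-- `B` is the localisation of `S` at a prime, inside the field `K`. -/
def IsLocalAt {K : Type*} [Field K] (S B : Subring K) : Prop :=
  S ≤ B ∧ IsLocalRing B ∧ ∀ b ∈ B, ∃ a ∈ S, ∃ s ∈ S, s ≠ 0 ∧ s⁻¹ ∈ B ∧ b = a / s

variable (X : Scheme.{u})

/-- The stalk at `x` as a subring of the function field. -/
noncomputable def stalkSubring [IsIntegral X] (x : X) : Subring X.functionField :=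
  (algebraMap (X.presheaf.stalk x) X.functionField).range

/-- sections over `U` as a subring of the function field -/
noncomputable def secSubring [IsIntegral X] (U : X.Opens) [Nonempty U] : Subring X.functionField :=
  (X.germToFunctionField U).hom.range

noncomputable def stalkEquiv [IsIntegral X] (x : X) : X.presheaf.stalk x ≃+* stalkSubring X x :=
  RingEquiv.ofBijective (algebraMap (X.presheaf.stalk x) X.functionField).rangeRestrict
    ⟨by
      intro a b hab
      apply IsFractionRing.injective (X.presheaf.stalk x) X.functionField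
      exact congrArg Subtype.val hab, RingHom.rangeRestrict_surjective _⟩

theorem secSubring_le [IsIntegral X] (U : X.Opens) [Nonempty U] (x : X) (hx : x ∈ U) :
    secSubring X U ≤ stalkSubring X x := by
  rintro _ ⟨a, rfl⟩
  refine ⟨X.presheaf.germ U x hx a, ?_⟩
  exact Scheme.algebraMap_germ_eq_germToFunctionField X hx a

theorem exists_frac [IsIntegral X] (U : X.Opens) (hU : IsAffineOpen U) [Nonempty U]
    (x : X) (hx : x ∈ U) (b : X.presheaf.stalk x) :
    ∃ a s : Γ(X, U), IsUnit (X.presheaf.germ U x hx s) ∧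
      b * X.presheaf.germ U x hx s = X.presheaf.germ U x hx a := by
  let := TopCat.Presheaf.algebra_section_stalk X.presheaf (⟨x, hx⟩ : U)
  have h : IsLocalization (hU.primeIdealOf ⟨x, hx⟩).asIdeal.primeCompl (X.presheaf.stalk x) :=
    hU.isLocalization_stalk ⟨x, hx⟩
  obtain ⟨⟨a, s⟩, hs⟩ := IsLocalization.surj (hU.primeIdealOf ⟨x, hx⟩).asIdeal.primeCompl b
  refine ⟨a, s, ?_, hs⟩
  exact IsLocalization.map_units (X.presheaf.stalk x) s

theorem germ_inv_mem [IsIntegral X] (U : X.Opens) [Nonempty U] (x : X) (hx : x ∈ U) (s : Γ(X, U))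
    (hs : IsUnit (X.presheaf.germ U x hx s)) :
    (X.germToFunctionField U s)⁻¹ ∈ stalkSubring X x := by
  obtain ⟨t, ht⟩ := hs
  refine ⟨((t⁻¹ : _ˣ) : X.presheaf.stalk x), ?_⟩
  rw [← Scheme.algebraMap_germ_eq_germToFunctionField X hx, ← ht]
  rw [eq_comm]
  apply inv_eq_of_mul_eq_one_right
  rw [← map_mul]
  simp

theorem stalkSubring_isLocalAt [IsIntegral X] (U : X.Opens) (hU : IsAffineOpen U) [Nonempty U]
    (x : X) (hx : x ∈ U) : IsLocalAt (secSubring X U) (stalkSubring X x) := by
  refine ⟨secSubring_le X U x hx, (stalkEquiv X x).isLocalRing, ?_⟩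
  rintro _ ⟨b, rfl⟩
  obtain ⟨a, s, hs, hab⟩ := exists_frac X U hU x hx b
  have hs' : IsUnit (X.germToFunctionField U s) := by
    rw [← Scheme.algebraMap_germ_eq_germToFunctionField X hx]
    exact hs.map _
  refine ⟨X.germToFunctionField U a, ⟨a, rfl⟩, X.germToFunctionField U s, ⟨s, rfl⟩,
    hs'.ne_zero, germ_inv_mem X U x hx s hs, ?_⟩
  rw [eq_div_iff hs'.ne_zero, ← Scheme.algebraMap_germ_eq_germToFunctionField X hx,
      ← Scheme.algebraMap_germ_eq_germToFunctionField X hx, ← map_mul, hab]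

theorem isUnit_germ_iff (U : X.Opens) (hU : IsAffineOpen U) (y : PrimeSpectrum Γ(X, U))
    (hy : hU.fromSpec y ∈ U) (s : Γ(X, U)) :
    IsUnit (X.presheaf.germ U (hU.fromSpec y) hy s) ↔ s ∉ y.asIdeal := by
  let := TopCat.Presheaf.algebra_section_stalk X.presheaf (⟨hU.fromSpec y, hy⟩ : U)
  have h : IsLocalization.AtPrime (X.presheaf.stalk (hU.fromSpec y)) y.asIdeal :=
    hU.isLocalization_stalk' y hy
  exact IsLocalization.AtPrime.isUnit_to_map_iff _ y.asIdeal s

theorem exists_point [IsIntegral X] (U : X.Opens) (hU : IsAffineOpen U) [Nonempty U]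
    (B : Subring X.functionField) (hB : IsLocalAt (secSubring X U) B) :
    ∃ x : X, x ∈ U ∧ B = stalkSubring X x := by
  obtain ⟨hSB, hloc, hfr⟩ := hB
  -- the prime of elements which are not units in `B`
  let g : Γ(X, U) →+* B :=
    ((X.germToFunctionField U).hom).codRestrict B (fun a => hSB ⟨a, rfl⟩)
  let p : Ideal Γ(X, U) := (IsLocalRing.maximalIdeal B).comap g
  have hp : p.IsPrime := Ideal.comap_isPrime _ _
  have hpg : ∀ s : Γ(X, U), s ∉ p ↔ IsUnit (g s) := fun s => by
    rw [Ideal.mem_comap, IsLocalRing.mem_maximalIdeal, mem_nonunits_iff, not_not]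
  let y : PrimeSpectrum Γ(X, U) := ⟨p, hp⟩
  have hx : hU.fromSpec y ∈ U := by
    have : hU.fromSpec y ∈ Set.range hU.fromSpec := ⟨y, rfl⟩
    rwa [hU.range_fromSpec] at this
  have hun : ∀ s : Γ(X, U), IsUnit (X.presheaf.germ U (hU.fromSpec y) hx s) ↔ IsUnit (g s) :=
    fun s => (isUnit_germ_iff X U hU y hx s).trans (hpg s)
  refine ⟨hU.fromSpec y, hx, ?_⟩
  generalize hU.fromSpec y = x at hx hun
  apply le_antisymm
  · intro b hb
    obtain ⟨_, ⟨a, rfl⟩, _, ⟨s, rfl⟩, hs0, hsi, rfl⟩ := hfr b hb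
    have h1 : IsUnit (g s) := by
      refine IsUnit.of_mul_eq_one ⟨_, hsi⟩ (Subtype.ext ?_)
      exact mul_inv_cancel₀ hs0
    rw [div_eq_mul_inv]
    exact mul_mem (secSubring_le X U x hx ⟨a, rfl⟩)
      (germ_inv_mem X U x hx s ((hun s).mpr h1))
  · rintro _ ⟨b, rfl⟩
    obtain ⟨a, s, hs, hab⟩ := exists_frac X U hU x hx b
    have hs1 : IsUnit (g s) := (hun s).mp hs
    have hs' : IsUnit (X.germToFunctionField U s) := by
      rw [← Scheme.algebraMap_germ_eq_germToFunctionField X hx]
      exact hs.map _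
    have h2 : algebraMap (X.presheaf.stalk x) X.functionField b =
        X.germToFunctionField U a * (X.germToFunctionField U s)⁻¹ := by
      rw [← div_eq_mul_inv, eq_div_iff hs'.ne_zero,
        ← Scheme.algebraMap_germ_eq_germToFunctionField X hx,
        ← Scheme.algebraMap_germ_eq_germToFunctionField X hx, ← map_mul, hab]
    rw [h2]
    refine mul_mem (hSB ⟨a, rfl⟩) ?_
    obtain ⟨t, ht⟩ := hs1
    have h3 : ((t⁻¹ : _ˣ) : B).1 = (X.germToFunctionField U s)⁻¹ := by
      rw [eq_comm]
      apply inv_eq_of_mul_eq_one_right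
      have : (g s) * ((t⁻¹ : _ˣ) : B) = 1 := by rw [← ht]; simp
      exact congrArg Subtype.val this
    rw [← h3]
    exact ((t⁻¹ : _ˣ) : B).2

theorem exists_point_iff [IsIntegral X] (U : X.Opens) (hU : IsAffineOpen U) [Nonempty U]
    (B : Subring X.functionField) :
    IsLocalAt (secSubring X U) B ↔ ∃ x : X, x ∈ U ∧ B = stalkSubring X x := by
  refine ⟨exists_point X U hU B, ?_⟩
  rintro ⟨x, hx, rfl⟩
  exact stalkSubring_isLocalAt X U hU x hx

end DS

end MP55c1e7
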