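import Mathlib
import Pool.Agent.Lib.MP_55c1e7_ag.DS.A

/-! Open immersions and local rings in the function field. -/

open AlgebraicGeometry CategoryTheory TopologicalSpace

universe u

namespace MP55c1e7

namespace DS

variable {X' X : Scheme.{u}} (j : X' ⟶ X) [IsOpenImmersion j]

/-- The map of function fields for an open immersion. -/
noncomputable def ffMap [IsIntegral X'] [IsIntegral X] : X.functionField ⟶ X'.functionField :=
  X.presheaf.stalkSpecializes
    (specializes_of_eq (genericPoint_eq_of_isOpenImmersion j)) ≫ j.stalkMap (genericPoint X')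

theorem ffMap_germ [IsIntegral X'] [IsIntegral X] (U : X.Opens) (hU : genericPoint X ∈ U)
    (hU' : genericPoint X' ∈ j ⁻¹ᵁ U) (s : Γ(X, U)) :
    ffMap j (X.presheaf.germ U (genericPoint X) hU s) =
      X'.presheaf.germ (j ⁻¹ᵁ U) (genericPoint X') hU' (j.app U s) := by
  rw [ffMap]
  rw [← ConcreteCategory.comp_apply, ← ConcreteCategory.comp_apply,
    TopCat.Presheaf.germ_stalkSpecializes_assoc, Scheme.Hom.germ_stalkMap]

theorem ffMap_comp_stalk [IsIntegral X'] [IsIntegral X] (x : X') :
    X.presheaf.stalkSpecializes ((genericPoint_spec X).specializes trivial : genericPoint X ⤳ j x) ≫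
      ffMap j = j.stalkMap x ≫
        X'.presheaf.stalkSpecializes
          ((genericPoint_spec X').specializes trivial : genericPoint X' ⤳ x) := by
  rw [ffMap, TopCat.Presheaf.stalkSpecializes_comp_assoc]
  rw [Scheme.Hom.stalkSpecializes_stalkMap]

theorem ffMap_algebraMap [IsIntegral X'] [IsIntegral X] (x : X') (a : X.presheaf.stalk (j x)) :
    ffMap j (algebraMap (X.presheaf.stalk (j x)) X.functionField a) =
      algebraMap (X'.presheaf.stalk x) X'.functionField (j.stalkMap x a) := by
  have h := ffMap_comp_stalk j x
  have h2 := congrArg (fun f => f a) (congrArg (fun f => f.hom) h)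
  exact h2

instance ffMap_isIso [IsIntegral X'] [IsIntegral X] : IsIso (ffMap j) := by
  have h : IsIso (X.presheaf.stalkSpecializes
      (specializes_of_eq (genericPoint_eq_of_isOpenImmersion j))) := by
    have := (X.presheaf.stalkCongr
      (Inseparable.of_eq (genericPoint_eq_of_isOpenImmersion j).symm)).isIso_hom
    exact this
  rw [ffMap]
  infer_instance

/-- The isomorphism of function fields for an open immersion. -/
noncomputable def ffEquiv [IsIntegral X'] [IsIntegral X] :
    X.functionField ≃+* X'.functionField :=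
  (asIso (ffMap j)).commRingCatIsoToRingEquiv

theorem ffEquiv_apply [IsIntegral X'] [IsIntegral X] (a : X.functionField) :
    ffEquiv j a = ffMap j a := rfl

theorem map_stalkSubring [IsIntegral X'] [IsIntegral X] (x : X') :
    (stalkSubring X (j x)).map (ffEquiv j : X.functionField →+* X'.functionField) =
      stalkSubring X' x := by
  ext b
  constructor
  · rintro ⟨_, ⟨a, rfl⟩, rfl⟩
    exact ⟨j.stalkMap x a, (ffMap_algebraMap j x a).symm⟩
  · rintro ⟨a, rfl⟩
    obtain ⟨c, rfl⟩ : ∃ c, j.stalkMap x c = a :=
      (ConcreteCategory.bijective_of_isIso (j.stalkMap x)).2 a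
    exact ⟨_, ⟨c, rfl⟩, ffMap_algebraMap j x c⟩

end DS

end MP55c1e7
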