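import Mathlib
import Pool.Agent.Lib.MP_55c1e7_ag.DS.B

/-! The set of local rings inside a field `K`. -/

open AlgebraicGeometry CategoryTheory TopologicalSpace

universe u

namespace MP55c1e7

namespace DS

theorem IsLocalAt.map {F K : Type*} [Field F] [Field K] (φ : F ≃+* K) {S B : Subring F}
    (h : IsLocalAt S B) : IsLocalAt (S.map (φ : F →+* K)) (B.map (φ : F →+* K)) := by
  obtain ⟨h1, h2, h3⟩ := h
  refine ⟨(Subring.gc_map_comap (φ : F →+* K)).monotone_l h1, (RingEquiv.subringMap φ).isLocalRing, ?_⟩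
  rintro _ ⟨b, hb, rfl⟩
  obtain ⟨a, ha, s, hs, hs0, hsi, rfl⟩ := h3 b hb
  refine ⟨φ a, ⟨a, ha, rfl⟩, φ s, ⟨s, hs, rfl⟩, ?_, ⟨s⁻¹, hsi, ?_⟩, ?_⟩
  · simpa using hs0
  · simp
  · simp

theorem isLocalAt_map_iff {F K : Type*} [Field F] [Field K] (φ : F ≃+* K) (S : Subring F)
    (B : Subring K) : IsLocalAt (S.map (φ : F →+* K)) B ↔
      ∃ B' : Subring F, IsLocalAt S B' ∧ B = B'.map (φ : F →+* K) := by
  constructor
  · intro h
    refine ⟨B.map (φ.symm : K →+* F), ?_, ?_⟩
    · have := h.map φ.symm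
      rwa [Subring.map_map, RingEquiv.symm_comp, Subring.map_id] at this
    · rw [Subring.map_map, RingEquiv.comp_symm, Subring.map_id]
  · rintro ⟨B', h, rfl⟩
    exact h.map φ

variable {K : Type*} [Field K]

/-- The local rings of `X` as subrings of `K`. -/
def locRings (X : Scheme.{u}) [IsIntegral X] (φ : X.functionField ≃+* K) : Set (Subring K) :=
  {B | ∃ x : X, B = (stalkSubring X x).map (φ : X.functionField →+* K)}

theorem mem_locRings_iff (X : Scheme.{u}) [IsIntegral X] (φ : X.functionField ≃+* K)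
    {ι : Type*} (U : ι → X.Opens) (hU : ∀ i, IsAffineOpen (U i)) (hc : ∀ x : X, ∃ i, x ∈ U i)
    (B : Subring K) :
    B ∈ locRings X φ ↔ ∃ i, ∃ _ : Nonempty (U i),
      IsLocalAt ((secSubring X (U i)).map (φ : X.functionField →+* K)) B := by
  constructor
  · rintro ⟨x, rfl⟩
    obtain ⟨i, hi⟩ := hc x
    have : Nonempty (U i) := ⟨⟨x, hi⟩⟩
    exact ⟨i, this, (stalkSubring_isLocalAt X (U i) (hU i) x hi).map φ⟩
  · rintro ⟨i, hne, h⟩
    obtain ⟨B', h', rfl⟩ := (isLocalAt_map_iff φ _ _).mp h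
    obtain ⟨x, -, rfl⟩ := exists_point X (U i) (hU i) B' h'
    exact ⟨x, rfl⟩

theorem locRings_openImmersion {X' X : Scheme.{u}} (j : X' ⟶ X) [IsOpenImmersion j]
    [IsIntegral X'] [IsIntegral X] (φ : X'.functionField ≃+* K) (B : Subring K) :
    B ∈ locRings X' φ ↔ ∃ x ∈ Set.range j,
      B = (stalkSubring X x).map (((ffEquiv j).trans φ : X.functionField ≃+* K) :
        X.functionField →+* K) := by
  have key : ∀ x : X', (stalkSubring X (j x)).map (((ffEquiv j).trans φ :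
      X.functionField ≃+* K) : X.functionField →+* K) =
      (stalkSubring X' x).map (φ : X'.functionField →+* K) := fun x => by
    rw [← map_stalkSubring j x, Subring.map_map]
    rfl
  constructor
  · rintro ⟨x, rfl⟩
    exact ⟨j x, ⟨x, rfl⟩, (key x).symm⟩
  · rintro ⟨_, ⟨x, rfl⟩, rfl⟩
    exact ⟨x, key x⟩

theorem locRings_iso {X' X : Scheme.{u}} (e : X' ≅ X)
    [IsIntegral X'] [IsIntegral X] (φ : X'.functionField ≃+* K) :
    locRings X' φ = locRings X ((ffEquiv e.hom).trans φ) := by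
  ext B
  rw [locRings_openImmersion e.hom φ B]
  constructor
  · rintro ⟨x, -, h⟩
    exact ⟨x, h⟩
  · rintro ⟨x, h⟩
    exact ⟨x, ⟨e.inv x, by simp⟩, h⟩

end DS

end MP55c1e7
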