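import Mathlib
import Pool.Agent.Lib.MP_55c1e7_ag.DS.C

/-! Integrality of a flat scheme with integral generic fibre. -/

open AlgebraicGeometry CategoryTheory TopologicalSpace Limits

universe u

namespace MP55c1e7

namespace DS

theorem isIntegral_of_dominant {X' X : Scheme.{u}} (j : X' ⟶ X) [IsSchemeTheoreticallyDominant j]
    [QuasiCompact j] [IsIntegral X'] : IsIntegral X := by
  have hne : Nonempty X := ⟨j (Classical.arbitrary X')⟩
  refine ⟨hne, fun U hU => ?_⟩
  have h2 : Nonempty (j ⁻¹ᵁ U) := by
    obtain ⟨x, hx⟩ := hU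
    obtain ⟨y, hy⟩ := j.denseRange.exists_mem_open U.isOpen ⟨x, hx⟩
    exact ⟨⟨y, hy⟩⟩
  have h3 : IsDomain Γ(X', j ⁻¹ᵁ U) := inferInstance
  exact Function.Injective.isDomain (j.app U).hom (j.app_injective U)

theorem isIntegral_of_generic {X S Z : Scheme.{u}} (f : X ⟶ S) (g : Z ⟶ S) [Flat f]
    [IsSchemeTheoreticallyDominant g] [QuasiCompact g] [IsIntegral (pullback f g)] :
    IsIntegral X :=
  isIntegral_of_dominant (pullback.fst f g)

section

variable {O k : Type u} [CommRing O] [CommRing k] [Algebra O k]

theorem dominant_spec [IsDomain O] (hinj : Function.Injective (algebraMap O k)) :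
    IsSchemeTheoreticallyDominant (Spec.map (CommRingCat.ofHom (algebraMap O k))) := by
  have h1 : IsDominant (Spec.map (CommRingCat.ofHom (algebraMap O k))) := by
    refine isDominant_of_of_appTop_injective ?_
    have h := Scheme.ΓSpecIso_naturality (CommRingCat.ofHom (algebraMap O k))
    rw [← Iso.eq_comp_inv] at h
    rw [h]
    intro a b hab
    simp only [ConcreteCategory.comp_apply] at hab
    have h1 := (ConcreteCategory.bijective_of_isIso
      (Scheme.ΓSpecIso (CommRingCat.of k)).inv).1 hab
    have h2 := hinj h1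
    exact (ConcreteCategory.bijective_of_isIso
      (Scheme.ΓSpecIso (CommRingCat.of O)).hom).1 h2
  exact IsSchemeTheoreticallyDominant.of_isDominant _

end

end DS

end MP55c1e7
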