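import Mathlib
import Pool.Agent.Lib.MP_55c1e7_ag.DS.D

/-! Integral schemes over a `Proj`: the chart rings in the function field. -/

open AlgebraicGeometry CategoryTheory TopologicalSpace HomogeneousLocalization

universe u

namespace MP55c1e7

namespace DS

section

variable {A σ : Type u} [CommRing A] [SetLike σ A] [AddSubgroupClass σ A]
  {𝒜 : ℕ → σ} [GradedRing 𝒜]
  {Z : Scheme.{u}} [IsIntegral Z] (i : Z ⟶ Proj 𝒜)

/-- The ring map `A_(f) → K(Z)`. -/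
noncomputable def rho (f : A) (hf : i (genericPoint Z) ∈ Proj.basicOpen 𝒜 f) :
    Away 𝒜 f →+* Z.functionField :=
  (Proj.awayToSection 𝒜 f ≫ i.app (Proj.basicOpen 𝒜 f) ≫
    Z.presheaf.germ (i ⁻¹ᵁ Proj.basicOpen 𝒜 f) (genericPoint Z) hf).hom

theorem rho_awayMap {f g x : A} {m : ℕ} (hgd : g ∈ 𝒜 m) (hx : x = f * g)
    (hf : i (genericPoint Z) ∈ Proj.basicOpen 𝒜 f)
    (hx' : i (genericPoint Z) ∈ Proj.basicOpen 𝒜 x) (z : Away 𝒜 f) :
    rho i x hx' (awayMap 𝒜 hgd hx z) = rho i f hf z := by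
  have h : CommRingCat.ofHom (awayMap 𝒜 hgd hx) ≫ Proj.awayToSection 𝒜 x ≫
      i.app (Proj.basicOpen 𝒜 x) ≫
        Z.presheaf.germ (i ⁻¹ᵁ Proj.basicOpen 𝒜 x) (genericPoint Z) hx' =
      Proj.awayToSection 𝒜 f ≫ i.app (Proj.basicOpen 𝒜 f) ≫
        Z.presheaf.germ (i ⁻¹ᵁ Proj.basicOpen 𝒜 f) (genericPoint Z) hf := by
    rw [Proj.awayMap_awayToSection_assoc, Scheme.Hom.naturality_assoc]
    congr 2
    exact TopCat.Presheaf.germ_res _ _ _ _
  exact congrArg (fun f => f.hom z) h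

theorem rho_ratio {f g : A} (hfd : f ∈ 𝒜 1) (hgd : g ∈ 𝒜 1)
    (hf : i (genericPoint Z) ∈ Proj.basicOpen 𝒜 f)
    (hg : i (genericPoint Z) ∈ Proj.basicOpen 𝒜 g) (n : ℕ) (a : A) (ha : a ∈ 𝒜 (n • 1)) :
    rho i f hf (Away.mk 𝒜 hfd n a ha) *
      rho i g hg (Away.mk 𝒜 hgd 1 f (by simpa using hfd)) ^ n =
      rho i g hg (Away.mk 𝒜 hgd n a ha) := by
  have hfg : i (genericPoint Z) ∈ Proj.basicOpen 𝒜 (f * g) := by
    rw [Proj.basicOpen_mul]
    exact ⟨hf, hg⟩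
  rw [← rho_awayMap i hgd rfl hf hfg, ← rho_awayMap i hfd (mul_comm f g) hg hfg,
    ← rho_awayMap i hfd (mul_comm f g) hg hfg, ← map_pow, ← map_mul]
  congr 1
  rw [← map_pow]
  rw [HomogeneousLocalization.ext_iff_val]
  simp only [HomogeneousLocalization.val_mul, awayMap_mk, Away.val_mk,
    HomogeneousLocalization.val_pow, map_pow]
  rw [Localization.mk_pow, Localization.mk_mul, Localization.mk_eq_mk_iff,
    Localization.r_iff_exists]
  refine ⟨1, ?_⟩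
  simp only [OneMemClass.coe_one, one_mul, Submonoid.coe_mul, SubmonoidClass.coe_pow]
  ring

theorem awayToSection_bijective {f : A} {m : ℕ} (hfd : f ∈ 𝒜 m) (hm : 0 < m) :
    Function.Bijective (Proj.awayToSection 𝒜 f) := by
  have h : IsIso (Proj.awayToSection 𝒜 f) := by
    rw [← Proj.basicOpenIsoAway_hom 𝒜 f hfd hm]
    infer_instance
  exact ConcreteCategory.bijective_of_isIso (Proj.awayToSection 𝒜 f)

theorem rho_range [IsClosedImmersion i] {f : A} {m : ℕ} (hfd : f ∈ 𝒜 m) (hm : 0 < m)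
    (hf : i (genericPoint Z) ∈ Proj.basicOpen 𝒜 f) [Nonempty (i ⁻¹ᵁ Proj.basicOpen 𝒜 f)] :
    (rho i f hf).range = secSubring Z (i ⁻¹ᵁ Proj.basicOpen 𝒜 f) := by
  ext b
  constructor
  · rintro ⟨a, rfl⟩
    exact ⟨_, rfl⟩
  · rintro ⟨c, rfl⟩
    obtain ⟨d, rfl⟩ := i.app_surjective (Proj.basicOpen 𝒜 f)
      (Proj.isAffineOpen_basicOpen 𝒜 f hfd hm) c
    obtain ⟨a, rfl⟩ := (awayToSection_bijective hfd hm).2 d
    exact ⟨a, rfl⟩

theorem isAffineOpen_preimage [IsAffineHom i] {f : A} {m : ℕ} (hfd : f ∈ 𝒜 m) (hm : 0 < m) :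
    IsAffineOpen (i ⁻¹ᵁ Proj.basicOpen 𝒜 f) :=
  (Proj.isAffineOpen_basicOpen 𝒜 f hfd hm).preimage i

theorem mem_basicOpen_of_nonempty {U : Z.Opens} (h : Nonempty U) : genericPoint Z ∈ U :=
  ((genericPoint_spec Z).mem_open_set_iff U.isOpen).mpr (by simpa using h)

/-- The scalars in the function field of a scheme over `Spec O`. -/
noncomputable def ffAlg {O : CommRingCat.{u}} (f : Z ⟶ Spec O) : O →+* Z.functionField :=
  ((Scheme.ΓSpecIso O).inv ≫ f.appTop ≫ Z.presheaf.germ ⊤ (genericPoint Z) trivial).hom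

end

theorem res_aux {X S : Scheme.{u}} (g : X ⟶ S) (U : X.Opens) :
    g.appTop ≫ X.presheaf.map (homOfLE (le_top : U ≤ ⊤)).op =
      (U.ι ≫ g).appTop ≫ U.topIso.hom := by
  rw [Scheme.Hom.comp_appTop, Category.assoc]
  congr 1
  rw [Scheme.Opens.ι_appTop, Scheme.Opens.topIso_hom]
  exact (X.presheaf.map_comp _ _)

theorem toSpecZero_res {A σ : Type u} [CommRing A] [SetLike σ A] [AddSubgroupClass σ A]
    {𝒜 : ℕ → σ} [GradedRing 𝒜] {f : A} {m : ℕ} (hfd : f ∈ 𝒜 m) (hm : 0 < m) :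
    (Scheme.ΓSpecIso (CommRingCat.of (𝒜 0))).inv ≫ (Proj.toSpecZero 𝒜).appTop ≫
      (Proj 𝒜).presheaf.map (homOfLE (le_top : Proj.basicOpen 𝒜 f ≤ ⊤)).op =
    CommRingCat.ofHom (fromZeroRingHom 𝒜 _) ≫ Proj.awayToSection 𝒜 f := by
  have h1 := Proj.awayι_toSpecZero 𝒜 f hfd hm
  rw [← Proj.basicOpenIsoSpec_inv_ι, Category.assoc, Iso.inv_comp_eq, Proj.basicOpenIsoSpec_hom] at h1
  have h3 := Proj.basicOpenToSpec_app_top 𝒜 f
  have h4 : (Proj.basicOpenToSpec 𝒜 f).appTop = _ := h3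
  rw [res_aux, h1, Scheme.Hom.comp_appTop, h4, Category.assoc, Category.assoc, Category.assoc,
    Iso.inv_hom_id, Category.comp_id, Scheme.ΓSpecIso_naturality_assoc, Iso.inv_hom_id_assoc]

section

variable {A σ : Type u} [CommRing A] [SetLike σ A] [AddSubgroupClass σ A]
  {𝒜 : ℕ → σ} [GradedRing 𝒜]
  {Z : Scheme.{u}} [IsIntegral Z] (i : Z ⟶ Proj 𝒜)

theorem rho_fromZero {f : A} {m : ℕ} (hfd : f ∈ 𝒜 m) (hm : 0 < m)
    (hf : i (genericPoint Z) ∈ Proj.basicOpen 𝒜 f) (r : 𝒜 0) :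
    rho i f hf (fromZeroRingHom 𝒜 _ r) = ffAlg (i ≫ Proj.toSpecZero 𝒜) r := by
  have h : CommRingCat.ofHom (fromZeroRingHom 𝒜 _) ≫ Proj.awayToSection 𝒜 f ≫
      i.app (Proj.basicOpen 𝒜 f) ≫
        Z.presheaf.germ (i ⁻¹ᵁ Proj.basicOpen 𝒜 f) (genericPoint Z) hf =
      (Scheme.ΓSpecIso (CommRingCat.of (𝒜 0))).inv ≫ (i ≫ Proj.toSpecZero 𝒜).appTop ≫
        Z.presheaf.germ ⊤ (genericPoint Z) trivial := by
    have h1 := toSpecZero_res (𝒜 := 𝒜) hfd hm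
    rw [← Category.assoc, ← h1, Scheme.Hom.comp_appTop, Category.assoc, Category.assoc,
      Category.assoc, Scheme.Hom.naturality_assoc]
    congr 3
    exact TopCat.Presheaf.germ_res _ _ _ _
  exact congrArg (fun f => f.hom r) h

end

end DS

end MP55c1e7
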