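import Mathlib
import Pool.Agent.Lib.MP_55c1e7_ag.DS.F

/-! Charts of projective space. -/

open AlgebraicGeometry CategoryTheory TopologicalSpace HomogeneousLocalization

universe u

namespace MP55c1e7

namespace DS

theorem eval₂_homog {R L : Type*} [CommRing R] [CommRing L] (α : R →+* L) {σ : Type*}
    (P : MvPolynomial σ R) (n : ℕ) (hP : P.IsHomogeneous n) (x y : σ → L) (u : L)
    (h : ∀ b, x b = u * y b) : P.eval₂ α x = u ^ n * P.eval₂ α y := by
  rw [MvPolynomial.eval₂_eq, MvPolynomial.eval₂_eq, Finset.mul_sum]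
  refine Finset.sum_congr rfl fun d hd => ?_
  have hdeg : d.degree = n := by
    by_contra hne
    exact (MvPolynomial.mem_support_iff.mp hd) (hP.coeff_eq_zero hne)
  have : ∏ b ∈ d.support, x b ^ d b = u ^ n * ∏ b ∈ d.support, y b ^ d b := by
    simp only [h, mul_pow, Finset.prod_mul_distrib]
    congr 1
    rw [Finset.prod_pow_eq_pow_sum, ← hdeg]
    rfl
  rw [this]
  ring

section

attribute [local instance] MvPolynomial.gradedAlgebra

variable {O : Type u} [CommRing O] {m : ℕ}

/-- The graded pieces of the polynomial ring. -/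
abbrev gr (O : Type u) [CommRing O] (m : ℕ) : ℕ → Submodule O (MvPolynomial (Fin (m + 1)) O) :=
  MvPolynomial.homogeneousSubmodule (Fin (m + 1)) O

theorem X_mem (a : Fin (m + 1)) : (MvPolynomial.X a : MvPolynomial (Fin (m + 1)) O) ∈ gr O m 1 :=
  MvPolynomial.isHomogeneous_X O a

/-- The element `X_b / X_a`. -/
noncomputable def frac (a b : Fin (m + 1)) : Away (gr O m) (MvPolynomial.X a) :=
  Away.mk (gr O m) (X_mem a) 1 (MvPolynomial.X b) (by simpa using X_mem b)

/-- the scalars -/
noncomputable def sc (f : MvPolynomial (Fin (m + 1)) O) : O →+* Away (gr O m) f :=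
  (fromZeroRingHom (gr O m) _).comp (algebraMap O (gr O m 0))

theorem mk_eq (a : Fin (m + 1)) (n : ℕ) (P : MvPolynomial (Fin (m + 1)) O)
    (hP : P ∈ gr O m (n • 1)) :
    Away.mk (gr O m) (X_mem a) n P hP = P.eval₂ (sc (MvPolynomial.X a)) (frac a) := by
  have hP' : P.IsHomogeneous n := by simpa using hP
  let V := algebraMap (Away (gr O m) (MvPolynomial.X a : MvPolynomial (Fin (m + 1)) O))
    (Localization.Away (MvPolynomial.X a : MvPolynomial (Fin (m + 1)) O))
  have hV : ∀ z, V z = z.val := fun z => HomogeneousLocalization.algebraMap_apply _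
  apply HomogeneousLocalization.val_injective
  rw [← hV, ← hV, MvPolynomial.hom_eval₂]
  let u : Localization.Away (MvPolynomial.X a : MvPolynomial (Fin (m + 1)) O) :=
    algebraMap (MvPolynomial (Fin (m + 1)) O) _ (MvPolynomial.X a)
  have hu : IsUnit u := IsLocalization.map_units _
    (⟨MvPolynomial.X a, 1, by simp⟩ :
      Submonoid.powers (MvPolynomial.X a : MvPolynomial (Fin (m + 1)) O))
  have h1 : ∀ b, algebraMap (MvPolynomial (Fin (m + 1)) O)
      (Localization.Away (MvPolynomial.X a : MvPolynomial (Fin (m + 1)) O)) (MvPolynomial.X b) =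
      u * (V ∘ frac a) b := by
    intro b
    simp only [Function.comp_apply, hV, frac, Away.val_mk, u]
    rw [← Localization.mk_one_eq_algebraMap, ← Localization.mk_one_eq_algebraMap,
      Localization.mk_mul, Localization.mk_eq_mk_iff, Localization.r_iff_exists]
    exact ⟨1, by simp⟩
  have h2 := eval₂_homog (V.comp (sc (MvPolynomial.X a))) P n hP' _ _ u h1
  have h3 : P.eval₂ (V.comp (sc (MvPolynomial.X a))) (fun b => algebraMap
      (MvPolynomial (Fin (m + 1)) O)
      (Localization.Away (MvPolynomial.X a : MvPolynomial (Fin (m + 1)) O)) (MvPolynomial.X b)) =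
      algebraMap (MvPolynomial (Fin (m + 1)) O) _ P := by
    have h4 : V.comp (sc (MvPolynomial.X a)) = (algebraMap (MvPolynomial (Fin (m + 1)) O)
      (Localization.Away (MvPolynomial.X a : MvPolynomial (Fin (m + 1)) O))).comp
        MvPolynomial.C := by
      ext r
      rw [RingHom.comp_apply, hV]
      refine Eq.trans ?_ (Localization.mk_one_eq_algebraMap
        (M := Submonoid.powers (MvPolynomial.X a : MvPolynomial (Fin (m + 1)) O))
        (MvPolynomial.C r : MvPolynomial (Fin (m + 1)) O))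
      rfl
    rw [h4]
    have h5 := MvPolynomial.hom_eval₂ P MvPolynomial.C (algebraMap (MvPolynomial (Fin (m + 1)) O)
      (Localization.Away (MvPolynomial.X a : MvPolynomial (Fin (m + 1)) O))) MvPolynomial.X
    rw [MvPolynomial.eval₂_eta] at h5
    rw [h5]
  rw [h3] at h2
  refine (hu.pow n).mul_left_cancel ?_
  refine Eq.trans ?_ h2
  rw [hV, Away.val_mk]
  simp only [u]
  rw [← map_pow, ← Localization.mk_one_eq_algebraMap, ← Localization.mk_one_eq_algebraMap,
      Localization.mk_mul, Localization.mk_eq_mk_iff, Localization.r_iff_exists]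
  exact ⟨1, by simp⟩

theorem range_eq_adjoin {K : Type*} [CommRing K] [Algebra O K] (a : Fin (m + 1))
    (ψ : Away (gr O m) (MvPolynomial.X a) →+* K)
    (hψ : ∀ r, ψ (sc (MvPolynomial.X a) r) = algebraMap O K r) :
    ψ.range = (Algebra.adjoin O (Set.range fun b => ψ (frac a b))).toSubring := by
  apply le_antisymm
  · rintro _ ⟨z, rfl⟩
    obtain ⟨n, P, hP, rfl⟩ := Away.mk_surjective (gr O m) (X_mem a) z
    rw [mk_eq, MvPolynomial.hom_eval₂]
    have h1 : ψ.comp (sc (MvPolynomial.X a)) = algebraMap O K := RingHom.ext hψ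
    rw [h1]
    change MvPolynomial.aeval (ψ ∘ frac a) P ∈ Algebra.adjoin O (Set.range fun b => ψ (frac a b))
    have h2 : MvPolynomial.aeval (ψ ∘ frac a) P ∈ (MvPolynomial.aeval (R := O) (ψ ∘ frac a)).range :=
      ⟨P, rfl⟩
    rw [← Algebra.adjoin_range_eq_range_aeval] at h2
    exact h2
  · intro x hx
    change x ∈ Algebra.adjoin O _ at hx
    induction hx using Algebra.adjoin_induction with
    | mem x hx =>
      obtain ⟨b, rfl⟩ := hx
      exact ⟨_, rfl⟩
    | algebraMap r => exact ⟨_, hψ r⟩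
    | add x y hx hy h1 h2 => exact add_mem h1 h2
    | mul x y hx hy h1 h2 => exact mul_mem h1 h2

end

section

variable {A σ : Type u} [CommRing A] [SetLike σ A] [AddSubgroupClass σ A]
  {𝒜 : ℕ → σ} [GradedRing 𝒜]

set_option backward.isDefEq.respectTransparency.types false in
theorem isUnit_germ_away {f g : A} (hfd : f ∈ 𝒜 1) (hgd : g ∈ 𝒜 1) (x : Proj 𝒜)
    (hx : x ∈ Proj.basicOpen 𝒜 f)
    (h : IsUnit ((Proj 𝒜).presheaf.germ (Proj.basicOpen 𝒜 f) x hx
      (Proj.awayToSection 𝒜 f (Away.mk 𝒜 hfd 1 g (by simpa using hgd))))) :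
    x ∈ Proj.basicOpen 𝒜 g := by
  have h1 := h.map (Proj.stalkIso' 𝒜 x)
  have h2 := Proj.stalkIso'_germ 𝒜 (Proj.basicOpen 𝒜 f) x hx
    (Proj.awayToSection 𝒜 f (Away.mk 𝒜 hfd 1 g (by simpa using hgd)))
  have h3 : IsUnit (((Proj.awayToSection 𝒜 f (Away.mk 𝒜 hfd 1 g (by simpa using hgd)))).1
    ⟨x, hx⟩) := by
    rw [← h2]
    exact h1
  have h4 := (HomogeneousLocalization.isUnit_iff_isUnit_val 𝒜
    (x.asHomogeneousIdeal.toIdeal) _).mpr h3
  have h6 : (Away.mk 𝒜 hfd 1 g (by simpa using hgd)).val =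
      IsLocalization.mk' (Localization.Away f) g (⟨f ^ 1, ⟨1, rfl⟩⟩ : Submonoid.powers f) := by
    rw [Away.val_mk, Localization.mk_eq_mk']
  have h5 := ProjectiveSpectrum.Proj.awayToSection_apply 𝒜 f
    (Away.mk 𝒜 hfd 1 g (by simpa using hgd)) ⟨x, hx⟩
  rw [h6, IsLocalization.map_mk'] at h5
  have h7 : IsUnit (IsLocalization.mk' (Localization.AtPrime x.asHomogeneousIdeal.toIdeal) 
      (RingHom.id A g) (⟨RingHom.id A (f ^ 1), (Submonoid.powers_le.mpr hx) ⟨1, rfl⟩⟩ :
        x.asHomogeneousIdeal.toIdeal.primeCompl)) := by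
    exact h5 ▸ h4
  rw [IsLocalization.AtPrime.isUnit_mk'_iff] at h7
  exact h7

end

end DS

end MP55c1e7
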