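import Mathlib
import Pool.Agent.Lib.MP_55c1e7_ag.DS.G

/-! Closed integral subschemes of projective space in terms of homogeneous coordinates in the
function field. -/

open AlgebraicGeometry CategoryTheory TopologicalSpace HomogeneousLocalization

universe u

namespace MP55c1e7

namespace DS

theorem ffAlg_SpecMap {Z : Scheme.{u}} [IsIntegral Z] {R S : CommRingCat.{u}} (g : Z ⟶ Spec S)
    (α : R ⟶ S) (r : R) : ffAlg (g ≫ Spec.map α) r = ffAlg g (α r) := by
  have h : (Scheme.ΓSpecIso R).inv ≫ (g ≫ Spec.map α).appTop ≫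
      Z.presheaf.germ ⊤ (genericPoint Z) trivial =
      α ≫ (Scheme.ΓSpecIso S).inv ≫ g.appTop ≫ Z.presheaf.germ ⊤ (genericPoint Z) trivial := by
    rw [Scheme.Hom.comp_appTop, Category.assoc, ← Scheme.ΓSpecIso_inv_naturality_assoc]
  exact congrArg (fun f => f.hom r) h

theorem ffAlg_ffMap {Z' Z : Scheme.{u}} [IsIntegral Z'] [IsIntegral Z] (j : Z' ⟶ Z)
    [IsOpenImmersion j] {R : CommRingCat.{u}} (g : Z ⟶ Spec R) (r : R) :
    ffMap j (ffAlg g r) = ffAlg (j ≫ g) r := by
  have h := ffMap_germ j ⊤ trivial trivial (g.appTop ((Scheme.ΓSpecIso R).inv r))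
  refine h.trans ?_
  have h2 : (Scheme.ΓSpecIso R).inv ≫ (j ≫ g).appTop ≫
      Z'.presheaf.germ ⊤ (genericPoint Z') trivial =
      (Scheme.ΓSpecIso R).inv ≫ g.appTop ≫ j.appTop ≫
        Z'.presheaf.germ ⊤ (genericPoint Z') trivial := by
    rw [Scheme.Hom.comp_appTop, Category.assoc]
  exact (congrArg (fun f => f.hom r) h2).symm

section

attribute [local instance] MvPolynomial.gradedAlgebra

variable {O : Type u} [CommRing O] {m : ℕ}

theorem adjoin_X_eq_top : Algebra.adjoin (gr O m 0)
    (Set.range (MvPolynomial.X : Fin (m + 1) → MvPolynomial (Fin (m + 1)) O)) = ⊤ := by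
  rw [eq_top_iff]
  intro P _
  have h : P ∈ Algebra.adjoin O
      (Set.range (MvPolynomial.X : Fin (m + 1) → MvPolynomial (Fin (m + 1)) O)) := by
    rw [MvPolynomial.adjoin_range_X]
    trivial
  induction h using Algebra.adjoin_induction with
  | mem x hx => exact Algebra.subset_adjoin hx
  | algebraMap r => exact Subalgebra.algebraMap_mem _ (algebraMap O (gr O m 0) r)
  | add x y hx hy h1 h2 => exact add_mem (h1 trivial) (h2 trivial)
  | mul x y hx hy h1 h2 => exact mul_mem (h1 trivial) (h2 trivial)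

theorem exists_mem_basicOpen (x : Proj (gr O m)) :
    ∃ a : Fin (m + 1), x ∈ Proj.basicOpen (gr O m) (MvPolynomial.X a) := by
  have h := Proj.iSup_basicOpen_eq_top' (gr O m)
    (MvPolynomial.X : Fin (m + 1) → MvPolynomial (Fin (m + 1)) O) (fun a => ⟨1, X_mem a⟩)
    adjoin_X_eq_top
  have h2 : x ∈ (⨆ a : Fin (m + 1), Proj.basicOpen (gr O m) (MvPolynomial.X a)) := by
    rw [h]
    trivial
  exact Opens.mem_iSup.mp h2

variable {Z : Scheme.{u}} [IsIntegral Z] (i : Z ⟶ Proj (gr O m))
  {K : Type*} [Field K] (φ : Z.functionField ≃+* K)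

theorem exists_coord : ∃ s : Fin (m + 1) → K, (∃ a, s a ≠ 0) ∧
    (∀ a, s a ≠ 0 ↔ i (genericPoint Z) ∈ Proj.basicOpen (gr O m) (MvPolynomial.X a)) ∧
    ∀ a (ha : i (genericPoint Z) ∈ Proj.basicOpen (gr O m) (MvPolynomial.X a)) b,
      φ (rho i (MvPolynomial.X a) ha (frac a b)) = s b / s a := by
  obtain ⟨c, hc⟩ := exists_mem_basicOpen (i (genericPoint Z))
  let s : Fin (m + 1) → K := fun b => φ (rho i (MvPolynomial.X c) hc (frac c b))
  have hs1 : ∀ a (ha : i (genericPoint Z) ∈ Proj.basicOpen (gr O m) (MvPolynomial.X a)) b,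
      φ (rho i (MvPolynomial.X a) ha (frac a b)) * s a = s b := by
    intro a ha b
    have h := rho_ratio i (X_mem a) (X_mem c) ha hc 1 (MvPolynomial.X b)
      (by simpa using X_mem b)
    have h2 := congrArg φ h
    rw [map_mul, map_pow, pow_one] at h2
    exact h2
  have hfr : ∀ a, frac a a = (1 : Away (gr O m) (MvPolynomial.X a)) := by
    intro a
    apply HomogeneousLocalization.val_injective
    rw [frac, Away.val_mk, HomogeneousLocalization.val_one, ← Localization.mk_one,
      Localization.mk_eq_mk_iff, Localization.r_iff_exists]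
    exact ⟨1, by simp⟩
  have hsc : s c = 1 := by
    simp only [s]
    rw [hfr, map_one, map_one]
  have hne : ∀ a, i (genericPoint Z) ∈ Proj.basicOpen (gr O m) (MvPolynomial.X a) → s a ≠ 0 := by
    intro a ha h0
    have h := hs1 a ha c
    rw [h0, mul_zero, hsc] at h
    exact zero_ne_one h
  refine ⟨s, ⟨c, by rw [hsc]; exact one_ne_zero⟩, fun a => ⟨fun h0 => ?_, hne a⟩,
    fun a ha b => (eq_div_iff (hne a ha)).mpr (hs1 a ha b)⟩
  have h1 : rho i (MvPolynomial.X c) hc (frac c a) ≠ 0 := by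
    intro h2
    apply h0
    simp only [s]
    rw [h2, map_zero]
  apply isUnit_germ_away (X_mem c) (X_mem a) _ hc
  have h3 : i.stalkMap (genericPoint Z) ((Proj (gr O m)).presheaf.germ
      (Proj.basicOpen (gr O m) (MvPolynomial.X c)) (i (genericPoint Z)) hc
      (Proj.awayToSection (gr O m) (MvPolynomial.X c) (frac c a))) =
      rho i (MvPolynomial.X c) hc (frac c a) :=
    Scheme.Hom.germ_stalkMap_apply i _ (genericPoint Z) hc _
  have h4 : IsUnit (i.stalkMap (genericPoint Z) ((Proj (gr O m)).presheaf.germ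
      (Proj.basicOpen (gr O m) (MvPolynomial.X c)) (i (genericPoint Z)) hc
      (Proj.awayToSection (gr O m) (MvPolynomial.X c) (frac c a)))) := by
    rw [h3]
    exact isUnit_iff_ne_zero.mpr h1
  exact (isUnit_map_iff (i.stalkMap (genericPoint Z)).hom _).mp h4

end

end DS

end MP55c1e7
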