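import Mathlib
import Pool.Agent.Lib.MP_55c1e7_ag.DS.H

/-! Closed integral subschemes of projective space over `O`: charts inside the field `K`. -/

open AlgebraicGeometry CategoryTheory TopologicalSpace HomogeneousLocalization

universe u

namespace MP55c1e7

namespace DS

section

attribute [local instance] MvPolynomial.gradedAlgebra

variable {O : Type u} [CommRing O] {m : ℕ}
variable {Z : Scheme.{u}} [IsIntegral Z] (i : Z ⟶ Proj (gr O m)) [IsClosedImmersion i]
  {K : Type*} [Field K] [Algebra O K] (φ : Z.functionField ≃+* K) (g : Z ⟶ Spec (CommRingCat.of O))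
  (hg : i ≫ Proj.toSpecZero (gr O m) ≫
    Spec.map (CommRingCat.ofHom (algebraMap O (gr O m 0))) = g)
  (hφ : ∀ r : O, φ (ffAlg g r) = algebraMap O K r)

include hg hφ in
theorem rho_sc (a : Fin (m + 1))
    (ha : i (genericPoint Z) ∈ Proj.basicOpen (gr O m) (MvPolynomial.X a)) (r : O) :
    φ (rho i (MvPolynomial.X a) ha (sc (MvPolynomial.X a) r)) = algebraMap O K r := by
  rw [← hφ, ← hg, ← Category.assoc, ffAlg_SpecMap]
  congr 1
  exact rho_fromZero i (X_mem a) Nat.one_pos ha _

include hg hφ in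
theorem chart_eq (s : Fin (m + 1) → K) (a : Fin (m + 1))
    (ha : i (genericPoint Z) ∈ Proj.basicOpen (gr O m) (MvPolynomial.X a))
    [Nonempty (i ⁻¹ᵁ Proj.basicOpen (gr O m) (MvPolynomial.X a))]
    (hs : ∀ b, φ (rho i (MvPolynomial.X a) ha (frac a b)) = s b / s a) :
    (secSubring Z (i ⁻¹ᵁ Proj.basicOpen (gr O m) (MvPolynomial.X a))).map
      (φ : Z.functionField →+* K) =
      (Algebra.adjoin O (Set.range fun b => s b / s a)).toSubring := by
  rw [← rho_range i (X_mem a) Nat.one_pos ha, RingHom.map_range,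
    range_eq_adjoin a ((φ : Z.functionField →+* K).comp (rho i (MvPolynomial.X a) ha))
      (fun r => rho_sc i φ g hg hφ a ha r)]
  congr 3
  exact funext hs

include hg hφ in
theorem exists_coord_charts : ∃ s : Fin (m + 1) → K, (∃ a, s a ≠ 0) ∧
    (∀ a, s a ≠ 0 → ∃ _ : Nonempty (i ⁻¹ᵁ Proj.basicOpen (gr O m) (MvPolynomial.X a)),
      (secSubring Z (i ⁻¹ᵁ Proj.basicOpen (gr O m) (MvPolynomial.X a))).map
      (φ : Z.functionField →+* K) =
      (Algebra.adjoin O (Set.range fun b => s b / s a)).toSubring) ∧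
    (∀ B : Subring K, B ∈ locRings Z φ ↔ ∃ a, s a ≠ 0 ∧
      IsLocalAt (Algebra.adjoin O (Set.range fun b => s b / s a)).toSubring B) := by
  obtain ⟨s, hs0, hs1, hs2⟩ := exists_coord i φ
  refine ⟨s, hs0, fun a ha => ?_, fun B => ?_⟩
  · have h := (hs1 a).mp ha
    have hne : Nonempty (i ⁻¹ᵁ Proj.basicOpen (gr O m) (MvPolynomial.X a)) := ⟨⟨_, h⟩⟩
    exact ⟨hne, chart_eq i φ g hg hφ s a h (hs2 a h)⟩
  · rw [mem_locRings_iff Z φ (fun a => i ⁻¹ᵁ Proj.basicOpen (gr O m) (MvPolynomial.X a))
      (fun a => isAffineOpen_preimage i (X_mem a) Nat.one_pos)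
      (fun x => exists_mem_basicOpen (i x))]
    constructor
    · rintro ⟨a, hne, h⟩
      have h1 : i (genericPoint Z) ∈ Proj.basicOpen (gr O m) (MvPolynomial.X a) :=
        mem_basicOpen_of_nonempty hne
      rw [chart_eq i φ g hg hφ s a h1 (hs2 a h1)] at h
      exact ⟨a, (hs1 a).mpr h1, h⟩
    · rintro ⟨a, ha, h⟩
      have h1 := (hs1 a).mp ha
      have hne : Nonempty (i ⁻¹ᵁ Proj.basicOpen (gr O m) (MvPolynomial.X a)) := ⟨⟨_, h1⟩⟩
      refine ⟨a, hne, ?_⟩
      rw [chart_eq i φ g hg hφ s a h1 (hs2 a h1)]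
      exact h

end

section

theorem smooth_sec {R : Type u} [CommRing R] {Z : Scheme.{u}} [IsIntegral Z]
    (g : Z ⟶ Spec (CommRingCat.of R)) [Smooth g] (U : Z.Opens) (hU : IsAffineOpen U) [Nonempty U]
    {K : Type u} [Field K] [Algebra R K] (φ : Z.functionField ≃+* K)
    (hφ : ∀ r : R, φ (ffAlg g r) = algebraMap R K r) (S : Subalgebra R K)
    (hS : (secSubring Z U).map (φ : Z.functionField →+* K) = S.toSubring) :
    Algebra.Smooth R S := by
  have hmem : ∀ c : Γ(Z, U), φ (Z.germToFunctionField U c) ∈ S := fun c => by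
    have h : φ (Z.germToFunctionField U c) ∈
      (secSubring Z U).map (φ : Z.functionField →+* K) := ⟨_, ⟨c, rfl⟩, rfl⟩
    rw [hS] at h
    exact h
  let θ : Γ(Z, U) →+* S := ((φ : Z.functionField →+* K).comp
    (Z.germToFunctionField U).hom).codRestrict S hmem
  have hθ : Function.Bijective θ := by
    constructor
    · intro a b hab
      have h1 : φ (Z.germToFunctionField U a) = φ (Z.germToFunctionField U b) :=
        congrArg Subtype.val hab
      exact Scheme.germToFunctionField_injective Z U (φ.injective h1)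
    · rintro ⟨b, hb⟩
      have hb' : b ∈ (secSubring Z U).map (φ : Z.functionField →+* K) := by
        rw [hS]
        exact hb
      obtain ⟨_, ⟨c, rfl⟩, hc⟩ := hb'
      exact ⟨c, Subtype.ext hc⟩
  have h1 := Smooth.smooth_appLE g (isAffineOpen_top (Spec (CommRingCat.of R))) hU le_top
  have h2 : (algebraMap R S) = θ.comp ((g.appLE ⊤ U le_top).hom.comp
      (Scheme.ΓSpecIso (CommRingCat.of R)).inv.hom) := by
    ext r
    have h3 : (Scheme.ΓSpecIso (CommRingCat.of R)).inv ≫ g.appLE ⊤ U le_top ≫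
        Z.germToFunctionField U = (Scheme.ΓSpecIso (CommRingCat.of R)).inv ≫ g.appTop ≫
          Z.presheaf.germ ⊤ (genericPoint Z) trivial := by
      have h5 : g.appLE ⊤ U le_top =
        g.appTop ≫ Z.presheaf.map (homOfLE (le_top : U ≤ ⊤)).op := rfl
      rw [h5, Category.assoc]
      congr 2
      exact TopCat.Presheaf.germ_res _ _ _ _
    have h4 : Z.germToFunctionField U (g.appLE ⊤ U le_top
        ((Scheme.ΓSpecIso (CommRingCat.of R)).inv r)) = ffAlg g r :=
      congrArg (fun f => f.hom r) h3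
    change algebraMap R K r = φ (Z.germToFunctionField U (g.appLE ⊤ U le_top
        ((Scheme.ΓSpecIso (CommRingCat.of R)).inv r)))
    rw [h4, hφ]
  rw [← RingHom.smooth_algebraMap, h2]
  refine RingHom.Smooth.comp (RingHom.Smooth.comp ?_ h1) (RingHom.Smooth.of_bijective hθ)
  exact RingHom.Smooth.of_bijective
    (ConcreteCategory.bijective_of_isIso (Scheme.ΓSpecIso (CommRingCat.of R)).inv)

end

end DS

end MP55c1e7
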