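import Mathlib
import Pool.Agent.Lib.MP_55c1e7_ag.DS.I

/-! The local rings of the generic fibre. -/

open AlgebraicGeometry CategoryTheory TopologicalSpace HomogeneousLocalization Limits

universe u

namespace MP55c1e7

namespace DS

section

variable {O k : Type u} [CommRing O] [CommRing k] [Algebra O k]

theorem mem_range_fst_iff {Z : Scheme.{u}} (g : Z ⟶ Spec (CommRingCat.of O)) (t : O)
    [IsLocalization.Away t k] (x : Z) :
    x ∈ Set.range (pullback.fst g (Spec.map (CommRingCat.ofHom (algebraMap O k)))) ↔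
      IsUnit (Z.presheaf.germ ⊤ x trivial (g.appTop ((Scheme.ΓSpecIso (CommRingCat.of O)).inv t))) := by
  rw [Scheme.Pullback.range_fst, ← Scheme.mem_basicOpen_top, ← Scheme.Hom.preimage_basicOpen_top,
    basicOpen_eq_of_affine]
  have h : Set.range (Spec.map (CommRingCat.ofHom (algebraMap O k))) =
      (PrimeSpectrum.basicOpen t : Set (PrimeSpectrum O)) :=
    PrimeSpectrum.localization_away_comap_range k t
  rw [h]
  rfl

theorem isUnit_germ_iff_inv_mem {Z : Scheme.{u}} [IsIntegral Z] (c : Γ(Z, ⊤)) (x : Z)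
    (hc : Z.presheaf.germ ⊤ (genericPoint Z) trivial c ≠ 0) :
    IsUnit (Z.presheaf.germ ⊤ x trivial c) ↔
      (Z.presheaf.germ ⊤ (genericPoint Z) trivial c)⁻¹ ∈ stalkSubring Z x := by
  have hne : Nonempty (⊤ : Z.Opens) := ⟨⟨x, trivial⟩⟩
  have h1 := Scheme.algebraMap_germ_eq_germToFunctionField Z (U := ⊤) (x := x) trivial c
  constructor
  · intro h
    exact germ_inv_mem Z ⊤ x trivial c h
  · rintro ⟨d, hd⟩
    refine IsUnit.of_mul_eq_one d ?_
    apply IsFractionRing.injective (Z.presheaf.stalk x) Z.functionField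
    rw [map_mul, h1, hd, map_one]
    exact mul_inv_cancel₀ hc

theorem mem_range_fst_iff' {Z : Scheme.{u}} [IsIntegral Z] (g : Z ⟶ Spec (CommRingCat.of O))
    (t : O) [IsLocalization.Away t k] (ht : ffAlg g t ≠ 0) (x : Z) :
    x ∈ Set.range (pullback.fst g (Spec.map (CommRingCat.ofHom (algebraMap O k)))) ↔
      (ffAlg g t)⁻¹ ∈ stalkSubring Z x := by
  rw [mem_range_fst_iff g t x]
  exact isUnit_germ_iff_inv_mem _ x ht

end

end DS

end MP55c1e7
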