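import Mathlib
import Pool.Agent.Lib.MP_55c1e7_ag.DS.J

/-! Local rings over `O[1/t]`. -/

open AlgebraicGeometry CategoryTheory TopologicalSpace HomogeneousLocalization Limits

universe u

namespace MP55c1e7

namespace DS

theorem isLocalAt_away_iff {K : Type*} [Field K] (S S' B : Subring K) (t : K) (ht : t ≠ 0)
    (htS : t ∈ S) (hSS' : S ≤ S') (htS' : t⁻¹ ∈ S') (h : ∀ b ∈ S', ∃ n : ℕ, b * t ^ n ∈ S) :
    IsLocalAt S' B ↔ IsLocalAt S B ∧ t⁻¹ ∈ B := by
  constructor
  · rintro ⟨h1, h2, h3⟩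
    refine ⟨⟨hSS'.trans h1, h2, fun b hb => ?_⟩, h1 htS'⟩
    obtain ⟨a, ha, s, hs, hs0, hsi, rfl⟩ := h3 b hb
    obtain ⟨n, hn⟩ := h a ha
    obtain ⟨m, hm⟩ := h s hs
    refine ⟨a * t ^ n * t ^ m, mul_mem hn (pow_mem htS m), s * t ^ m * t ^ n,
      mul_mem hm (pow_mem htS n), by simp [hs0, ht], ?_, ?_⟩
    · rw [mul_inv, mul_inv, ← inv_pow, ← inv_pow]
      exact mul_mem (mul_mem hsi (pow_mem (h1 htS') m)) (pow_mem (h1 htS') n)
    · field_simp
  · rintro ⟨⟨h1, h2, h3⟩, h4⟩
    refine ⟨fun b hb => ?_, h2, fun b hb => ?_⟩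
    · obtain ⟨n, hn⟩ := h b hb
      have : b = b * t ^ n * t⁻¹ ^ n := by
        rw [inv_pow, mul_assoc, mul_inv_cancel₀ (pow_ne_zero n ht), mul_one]
      rw [this]
      exact mul_mem (h1 hn) (pow_mem h4 n)
    · obtain ⟨a, ha, s, hs, hs0, hsi, rfl⟩ := h3 b hb
      exact ⟨a, hSS' ha, s, hSS' hs, hs0, hsi, rfl⟩

theorem adjoin_away {O k K : Type*} [CommRing O] [CommRing k] [Algebra O k] [Field K] [Algebra O K]
    [Algebra k K] [IsScalarTower O k K] (t : O) [IsLocalization.Away t k] (v : Set K) (b : K)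
    (hb : b ∈ Algebra.adjoin k v) :
    ∃ n : ℕ, b * algebraMap O K t ^ n ∈ Algebra.adjoin O v := by
  have htm : algebraMap O K t ∈ Algebra.adjoin O v := Subalgebra.algebraMap_mem _ t
  induction hb using Algebra.adjoin_induction with
  | mem x hx => exact ⟨0, by simpa using Algebra.subset_adjoin hx⟩
  | algebraMap r =>
    obtain ⟨n, a, ha⟩ := IsLocalization.Away.surj t r
    refine ⟨n, ?_⟩
    have h := congrArg (algebraMap k K) ha
    rw [map_mul, map_pow, ← IsScalarTower.algebraMap_apply O k K,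
      ← IsScalarTower.algebraMap_apply O k K] at h
    rw [h]
    exact Subalgebra.algebraMap_mem _ a
  | add x y hx hy h1 h2 =>
    obtain ⟨n, hn⟩ := h1
    obtain ⟨m, hm⟩ := h2
    refine ⟨n + m, ?_⟩
    have : (x + y) * algebraMap O K t ^ (n + m) = x * algebraMap O K t ^ n * algebraMap O K t ^ m +
      y * algebraMap O K t ^ m * algebraMap O K t ^ n := by ring
    rw [this]
    exact add_mem (mul_mem hn (pow_mem htm m)) (mul_mem hm (pow_mem htm n))
  | mul x y hx hy h1 h2 =>
    obtain ⟨n, hn⟩ := h1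
    obtain ⟨m, hm⟩ := h2
    refine ⟨n + m, ?_⟩
    have : (x * y) * algebraMap O K t ^ (n + m) = x * algebraMap O K t ^ n *
      (y * algebraMap O K t ^ m) := by ring
    rw [this]
    exact mul_mem hn hm

theorem isLocalAt_adjoin_iff {O k K : Type*} [CommRing O] [CommRing k] [Algebra O k] [Field K]
    [Algebra O K] [Algebra k K] [IsScalarTower O k K] (t : O) [IsLocalization.Away t k] (v : Set K)
    (B : Subring K) :
    IsLocalAt (Algebra.adjoin k v).toSubring B ↔
      IsLocalAt (Algebra.adjoin O v).toSubring B ∧ (algebraMap O K t)⁻¹ ∈ B := by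
  have hu : IsUnit (algebraMap O K t) := by
    rw [IsScalarTower.algebraMap_apply O k K]
    exact (IsLocalization.Away.algebraMap_isUnit t).map _
  apply isLocalAt_away_iff
  · exact hu.ne_zero
  · exact Subalgebra.algebraMap_mem _ t
  · intro x hx
    change x ∈ Algebra.adjoin k v
    change x ∈ Algebra.adjoin O v at hx
    induction hx using Algebra.adjoin_induction with
    | mem x hx => exact Algebra.subset_adjoin hx
    | algebraMap r =>
      rw [IsScalarTower.algebraMap_apply O k K]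
      exact Subalgebra.algebraMap_mem _ _
    | add x y hx hy h1 h2 => exact add_mem h1 h2
    | mul x y hx hy h1 h2 => exact mul_mem h1 h2
  · have h1 : (algebraMap O K t)⁻¹ = algebraMap k K (IsLocalization.Away.invSelf t) := by
      apply inv_eq_of_mul_eq_one_right
      rw [IsScalarTower.algebraMap_apply O k K, ← map_mul, IsLocalization.Away.mul_invSelf,
        map_one]
    rw [h1]
    exact Subalgebra.algebraMap_mem _ _
  · intro b hb
    exact adjoin_away t v b hb

end DS

end MP55c1e7
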