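import Mathlib
import Pool.Agent.Lib.MP_55c1e7_ag.DS.L

/-! Smooth projective models: homogeneous coordinates in the function field of the generic fibre. -/

open AlgebraicGeometry CategoryTheory TopologicalSpace HomogeneousLocalization Limits

universe u

namespace MP55c1e7

namespace DS

section

attribute [local instance] MvPolynomial.gradedAlgebra

variable {O k K : Type u} [CommRing O] [IsDomain O] [Field k] [Algebra O k] [Field K] [Algebra O K]
  [Algebra k K] [IsScalarTower O k K]

theorem model_coords (t : O) [IsLocalization.Away t k]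
    (hinj : Function.Injective (algebraMap O k))
    {X : Scheme.{u}} [IsIntegral X] (f : X ⟶ Spec (CommRingCat.of k))
    (φ : X.functionField ≃+* K) (hφ : ∀ r : k, φ (ffAlg f r) = algebraMap k K r)
    {Y : Scheme.{u}} (g : Y ⟶ Spec (CommRingCat.of O)) [Smooth g] {m : ℕ}
    (i : Y ⟶ Proj (gr O m)) [IsClosedImmersion i]
    (hg : i ≫ Proj.toSpecZero (gr O m) ≫
      Spec.map (CommRingCat.ofHom (algebraMap O (gr O m 0))) = g)
    (e : pullback g (Spec.map (CommRingCat.ofHom (algebraMap O k))) ≅ X)
    (he : e.hom ≫ f = pullback.snd g (Spec.map (CommRingCat.ofHom (algebraMap O k)))) :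
    ∃ s : Fin (m + 1) → K, (∃ a, s a ≠ 0) ∧
      (∀ a, s a ≠ 0 → Algebra.Smooth O (Algebra.adjoin O (Set.range fun b => s b / s a))) ∧
      (∀ B : Subring K, B ∈ locRings X φ ↔ ∃ a, s a ≠ 0 ∧
        IsLocalAt (Algebra.adjoin k (Set.range fun b => s b / s a)).toSubring B) := by
  have hdom := dominant_spec hinj
  have hop : IsOpenImmersion (Spec.map (CommRingCat.ofHom (algebraMap O k))) :=
    IsOpenImmersion.of_isLocalization t
  have hP : IsIntegral (pullback g (Spec.map (CommRingCat.ofHom (algebraMap O k)))) := by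
    have : Nonempty ↥(pullback g (Spec.map (CommRingCat.ofHom (algebraMap O k))) : Scheme.{u}) :=
      ⟨e.inv (Classical.arbitrary X)⟩
    exact isIntegral_of_isOpenImmersion e.hom
  have hY : IsIntegral Y :=
    isIntegral_of_generic g (Spec.map (CommRingCat.ofHom (algebraMap O k)))
  let j := pullback.fst g (Spec.map (CommRingCat.ofHom (algebraMap O k)))
  let φP : (pullback g (Spec.map (CommRingCat.ofHom (algebraMap O k)))).functionField ≃+* K :=
    (ffEquiv e.hom).symm.trans φ
  let ψ : Y.functionField ≃+* K := (ffEquiv j).trans φP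
  have h1 : locRings X φ = locRings _ φP := by
    rw [locRings_iso e φP]
    congr 1
    ext a
    simp [φP]
  have hψ : ∀ r : O, ψ (ffAlg g r) = algebraMap O K r := by
    intro r
    have h2 : ffMap j (ffAlg g r) = ffMap e.hom (ffAlg f (algebraMap O k r)) := by
      rw [ffAlg_ffMap, ffAlg_ffMap, he]
      have h3 : j ≫ g = pullback.snd g (Spec.map (CommRingCat.ofHom (algebraMap O k))) ≫
        Spec.map (CommRingCat.ofHom (algebraMap O k)) := pullback.condition
      rw [h3, ffAlg_SpecMap]
      rfl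
    have h4 : ψ (ffAlg g r) = φ ((ffEquiv e.hom).symm (ffMap j (ffAlg g r))) := rfl
    rw [h4, h2]
    have h5 : (ffEquiv e.hom).symm (ffMap e.hom (ffAlg f (algebraMap O k r))) =
      ffAlg f (algebraMap O k r) := (ffEquiv e.hom).symm_apply_apply _
    rw [h5, hφ, ← IsScalarTower.algebraMap_apply O k K]
  obtain ⟨s, hs0, hs1, hs2⟩ := exists_coord_charts i ψ g hg hψ
  refine ⟨s, hs0, fun a ha => ?_, fun B => ?_⟩
  · obtain ⟨hne, hch⟩ := hs1 a ha
    exact smooth_sec g _ (isAffineOpen_preimage i (X_mem a) Nat.one_pos) ψ hψ _ hch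
  · have hu : algebraMap O K t ≠ 0 := by
      rw [IsScalarTower.algebraMap_apply O k K]
      exact ((IsLocalization.Away.algebraMap_isUnit t).map (algebraMap k K)).ne_zero
    have hft : ffAlg g t ≠ 0 := by
      intro h0
      apply hu
      rw [← hψ, h0, map_zero]
    have h6 : ∀ x : Y, x ∈ Set.range j ↔
        (algebraMap O K t)⁻¹ ∈ (stalkSubring Y x).map (ψ : Y.functionField →+* K) := by
      intro x
      rw [mem_range_fst_iff' g t hft x]
      constructor
      · intro h
        refine ⟨_, h, ?_⟩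
        rw [map_inv₀]
        exact congrArg _ (hψ t)
      · rintro ⟨y, hy, h⟩
        have h7 : y = (ffAlg g t)⁻¹ := by
          apply ψ.injective
          rw [map_inv₀, hψ]
          exact h
        rw [← h7]
        exact hy
    rw [h1, locRings_openImmersion j φP B]
    have h8 : (∃ x ∈ Set.range j, B = (stalkSubring Y x).map (((ffEquiv j).trans φP :
        Y.functionField ≃+* K) : Y.functionField →+* K)) ↔
        B ∈ locRings Y ψ ∧ (algebraMap O K t)⁻¹ ∈ B := by
      constructor
      · rintro ⟨x, hx, rfl⟩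
        exact ⟨⟨x, rfl⟩, (h6 x).mp hx⟩
      · rintro ⟨⟨x, rfl⟩, h⟩
        exact ⟨x, (h6 x).mpr h, rfl⟩
    rw [h8, hs2]
    constructor
    · rintro ⟨⟨a, ha, h⟩, ht⟩
      exact ⟨a, ha, (isLocalAt_adjoin_iff t _ B).mpr ⟨h, ht⟩⟩
    · rintro ⟨a, ha, h⟩
      have h9 := (isLocalAt_adjoin_iff t _ B).mp h
      exact ⟨⟨a, ha, h9.1⟩, h9.2⟩

end

end DS

end MP55c1e7
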