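import Mathlib
import Pool.Agent.Lib.MP_55c1e7_ag.DS.M
import Pool.Agent.Lib.MP_55c1e7_ag.CG.Model

/-! The local rings of the projective model `PM R h`. -/

open AlgebraicGeometry CategoryTheory TopologicalSpace HomogeneousLocalization Limits

universe u

namespace MP55c1e7

namespace DS

open CG

variable (R : Type u) {K : Type u} [CommRing R] [Field K] [Algebra R K] {ι : Type} (h : ι → K)

/-- The sections over a chart are the chart ring. -/
noncomputable def secEquiv {i : ι} (hi : h i ≠ 0) :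
    Γ(PM R h, Proj.basicOpen (lgrad R h) (lgen R h i)) ≃+* chart R h i :=
  (RingEquiv.ofBijective (Proj.awayToSection (lgrad R h) (lgen R h i)).hom
    (awayToSection_bijective (lgen_mem R h i) Nat.one_pos)).symm.trans (awayEquiv R h hi)

theorem secEquiv_awayToSection {i : ι} (hi : h i ≠ 0) (z : Away (lgrad R h) (lgen R h i)) :
    secEquiv R h hi (Proj.awayToSection (lgrad R h) (lgen R h i) z) = awayEquiv R h hi z := by
  have : (RingEquiv.ofBijective (Proj.awayToSection (lgrad R h) (lgen R h i)).hom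
    (awayToSection_bijective (lgen_mem R h i) Nat.one_pos)).symm
      (Proj.awayToSection (lgrad R h) (lgen R h i) z) = z :=
    RingEquiv.symm_apply_apply _ z
  rw [secEquiv, RingEquiv.trans_apply, this]

theorem nonempty_basicOpen {i : ι} (hi : h i ≠ 0) :
    Nonempty (Proj.basicOpen (lgrad R h) (lgen R h i)) := by
  let y : Spec (CommRingCat.of (chart R h i)) := (⊥ : PrimeSpectrum (chart R h i))
  have hy : chartι R hi y ∈ (chartι R hi).opensRange := ⟨y, rfl⟩
  rw [chartι_opensRange] at hy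
  exact ⟨⟨_, hy⟩⟩

theorem mem_basicOpen_gen [IsIntegral (PM R h)] {i : ι} (hi : h i ≠ 0) :
    genericPoint (PM R h) ∈ Proj.basicOpen (lgrad R h) (lgen R h i) :=
  mem_basicOpen_of_nonempty (nonempty_basicOpen R h hi)

/-- The function field of the projective model is `K`. -/
noncomputable def ffK [IsIntegral (PM R h)] {i : ι} (hi : h i ≠ 0)
    (hfr : IsFractionRing (chart R h i) K) : (PM R h).functionField ≃+* K :=
  have := nonempty_basicOpen R h hi
  have := functionField_isFractionRing_of_isAffineOpen (PM R h)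
    (Proj.basicOpen (lgrad R h) (lgen R h i))
    (Proj.isAffineOpen_basicOpen (lgrad R h) (lgen R h i) (lgen_mem R h i) Nat.one_pos)
  IsFractionRing.ringEquivOfRingEquiv (secEquiv R h hi)

theorem ffK_germ [IsIntegral (PM R h)] {i : ι} (hi : h i ≠ 0)
    (hfr : IsFractionRing (chart R h i) K)
    (s : Γ(PM R h, Proj.basicOpen (lgrad R h) (lgen R h i))) :
    ffK R h hi hfr ((PM R h).presheaf.germ (Proj.basicOpen (lgrad R h) (lgen R h i))
      (genericPoint (PM R h)) (mem_basicOpen_gen R h hi) s) = secEquiv R h hi s := by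
  have := nonempty_basicOpen R h hi
  have := functionField_isFractionRing_of_isAffineOpen (PM R h)
    (Proj.basicOpen (lgrad R h) (lgen R h i))
    (Proj.isAffineOpen_basicOpen (lgrad R h) (lgen R h i) (lgen_mem R h i) Nat.one_pos)
  exact IsFractionRing.ringEquivOfRingEquiv_algebraMap (secEquiv R h hi) s

theorem rho_id [IsIntegral (PM R h)] {i : ι} (hi : h i ≠ 0) (z : Away (lgrad R h) (lgen R h i)) :
    rho (𝟙 (PM R h)) (lgen R h i) (mem_basicOpen_gen R h hi) z =
    (PM R h).presheaf.germ (Proj.basicOpen (lgrad R h) (lgen R h i))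
      (genericPoint (PM R h)) (mem_basicOpen_gen R h hi)
        (Proj.awayToSection (lgrad R h) (lgen R h i) z) := by
  rfl

theorem ffK_rho_self [IsIntegral (PM R h)] {i : ι} (hi : h i ≠ 0)
    (hfr : IsFractionRing (chart R h i) K) (z : Away (lgrad R h) (lgen R h i)) :
    ffK R h hi hfr (rho (𝟙 (PM R h)) (lgen R h i) (mem_basicOpen_gen R h hi) z) =
      awayMapK R h hi z := by
  rw [rho_id R h hi, ffK_germ, secEquiv_awayToSection]
  rfl

theorem ffK_rho [IsIntegral (PM R h)] {i j : ι} (hi : h i ≠ 0) (hj : h j ≠ 0)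
    (hfr : IsFractionRing (chart R h i) K) (z : Away (lgrad R h) (lgen R h j)) :
    ffK R h hi hfr (rho (𝟙 (PM R h)) (lgen R h j) (mem_basicOpen_gen R h hj) z) =
      awayMapK R h hj z := by
  obtain ⟨n, a, ha, rfl⟩ := Away.mk_surjective (lgrad R h) (lgen_mem R h j) z
  have h1 := congrArg (ffK R h hi hfr) (rho_ratio (𝟙 (PM R h)) (lgen_mem R h j) (lgen_mem R h i)
    (mem_basicOpen_gen R h hj) (mem_basicOpen_gen R h hi) n a ha)
  rw [map_mul, map_pow, ffK_rho_self, ffK_rho_self, awayMapK_mk, awayMapK_mk, levi_lgen] at h1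
  have ha' : a ∈ lgrad R h n := by simpa using ha
  obtain ⟨c, hc⟩ := ha'
  change Polynomial.monomial n c = (a : Polynomial K) at hc
  rw [awayMapK_mk, levi_apply, ← hc, Polynomial.eval_monomial]
  rw [levi_apply, ← hc, Polynomial.eval_monomial] at h1
  have h2 : (h j / h i) ^ n ≠ 0 := pow_ne_zero n (div_ne_zero hj hi)
  rw [← mul_left_inj' h2, h1, mul_assoc, ← mul_pow]
  congr 2
  field_simp

theorem secSubring_PM [IsIntegral (PM R h)] {i j : ι} (hi : h i ≠ 0) (hj : h j ≠ 0)
    (hfr : IsFractionRing (chart R h i) K)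
    [Nonempty (Proj.basicOpen (lgrad R h) (lgen R h j))] :
    (secSubring (PM R h) (Proj.basicOpen (lgrad R h) (lgen R h j))).map
      (ffK R h hi hfr : (PM R h).functionField →+* K) = (chart R h j).toSubring := by
  ext b
  constructor
  · rintro ⟨_, ⟨c, rfl⟩, rfl⟩
    obtain ⟨z, rfl⟩ := (awayToSection_bijective (lgen_mem R h j) Nat.one_pos).2 c
    have h1 := ffK_rho R h hi hj hfr z
    rw [rho_id R h hj] at h1
    have h2 := awayMapK_mem R h hj z
    rw [← h1] at h2
    exact h2
  · intro hb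
    obtain ⟨z, hz⟩ := awayMapK_surj R h hj hb
    refine ⟨_, ⟨Proj.awayToSection (lgrad R h) (lgen R h j) z, rfl⟩, ?_⟩
    have h1 := ffK_rho R h hi hj hfr z
    rw [rho_id R h hj, hz] at h1
    exact h1

theorem mem_locRings_PM [IsIntegral (PM R h)] {i : ι} (hi : h i ≠ 0)
    (hfr : IsFractionRing (chart R h i) K) (B : Subring K) :
    B ∈ locRings (PM R h) (ffK R h hi hfr) ↔
      ∃ j, h j ≠ 0 ∧ IsLocalAt (chart R h j).toSubring B := by
  rw [mem_locRings_iff (PM R h) (ffK R h hi hfr)
    (fun j : {j // h j ≠ 0} => Proj.basicOpen (lgrad R h) (lgen R h j.1))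
    (fun j => Proj.isAffineOpen_basicOpen (lgrad R h) _ (lgen_mem R h j.1) Nat.one_pos)]
  · constructor
    · rintro ⟨⟨j, hj⟩, hne, hB⟩
      rw [secSubring_PM R h hi hj hfr] at hB
      exact ⟨j, hj, hB⟩
    · rintro ⟨j, hj, hB⟩
      have hne := nonempty_basicOpen R h hj
      refine ⟨⟨j, hj⟩, hne, ?_⟩
      rw [secSubring_PM R h hi hj hfr]
      exact hB
  · intro x
    obtain ⟨j, hj, y, rfl⟩ := PM.exists_chart R h x
    refine ⟨⟨j, hj⟩, ?_⟩
    have hy : chartι R hj y ∈ (chartι R hj).opensRange := ⟨y, rfl⟩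
    rw [chartι_opensRange] at hy
    exact hy

theorem fromZero_eq {A : Type u} [CommRing A] [Algebra R A] (𝒜 : ℕ → Submodule R A)
    [GradedAlgebra 𝒜] {f : A} (hf : f ∈ 𝒜 1) (r : R) :
    fromZeroRingHom 𝒜 (Submonoid.powers f) (algebraMap R (𝒜 0) r) =
      Away.mk 𝒜 hf 0 (algebraMap R A r)
        (by rw [zero_smul]; exact SetLike.algebraMap_mem_graded 𝒜 r) := by
  apply HomogeneousLocalization.val_injective
  rw [Away.val_mk]
  change Localization.mk (algebraMap R A r) 1 = _
  congr 1
  apply Subtype.ext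
  simp

theorem ffK_ffAlg [IsIntegral (PM R h)] {i : ι} (hi : h i ≠ 0)
    (hfr : IsFractionRing (chart R h i) K) (r : R) :
    ffK R h hi hfr (ffAlg (PM.toSpec R h) r) = algebraMap R K r := by
  have h3 : PM.toSpec R h = Proj.toSpecZero (lgrad R h) ≫
    Spec.map (CommRingCat.ofHom (algebraMap R (lgrad R h 0))) := rfl
  have h1 := rho_fromZero (𝟙 (PM R h)) (lgen_mem R h i) Nat.one_pos (mem_basicOpen_gen R h hi)
    (CommRingCat.ofHom (algebraMap R (lgrad R h 0)) r)
  rw [Category.id_comp] at h1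
  rw [h3, ffAlg_SpecMap, ← h1]
  refine (ffK_rho_self R h hi hfr _).trans ?_
  have h4 : fromZeroRingHom (lgrad R h) (Submonoid.powers (lgen R h i))
      (CommRingCat.ofHom (algebraMap R (lgrad R h 0)) r) =
      Away.mk (lgrad R h) (lgen_mem R h i) 0 (algebraMap R (lalg R h) r)
        (by rw [zero_smul]; exact SetLike.algebraMap_mem_graded (lgrad R h) r) :=
    fromZero_eq R (lgrad R h) (lgen_mem R h i) r
  rw [h4, awayMapK_mk]
  exact (levi R h i).commutes r

end DS

end MP55c1e7
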