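import Mathlib
import Pool.Agent.Lib.MP_55c1e7_ag.DS.N
import Pool.Agent.Lib.MP_55c1e7_ag.CK.PMc
import Pool.Agent.Lib.MP_55c1e7_ag.D.Basic
import Pool.Agent.Lib.MP_55c1e7_ag.Defs

/-! Good models of `PM k h` give homogeneous coordinates in `K`. -/

open AlgebraicGeometry CategoryTheory TopologicalSpace HomogeneousLocalization Limits

namespace MP55c1e7

namespace DS

open CG Pool.Agent.Lib.MP_55c1e7_ag

theorem loc_iff {K : Type} [Field K] (B : Subring K) : D.Loc B ↔ IsLocalRing B := by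
  have hNU : ∀ a : B, D.NU B (a : K) ↔ a ∈ nonunits B := by
    intro a
    rw [mem_nonunits_iff, D.NU]
    constructor
    · rintro ⟨-, h⟩ hu
      obtain ⟨b, hb⟩ := isUnit_iff_exists_inv.mp hu
      have hb' : (a : K) * (b : K) = 1 := congrArg Subtype.val hb
      have ha0 : (a : K) ≠ 0 := by
        intro h0
        rw [h0, zero_mul] at hb'
        exact zero_ne_one hb'
      apply h ha0
      rw [inv_eq_of_mul_eq_one_right hb']
      exact b.2
    · intro h
      refine ⟨a.2, fun h0 hinv => h ?_⟩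
      exact IsUnit.of_mul_eq_one ⟨_, hinv⟩ (Subtype.ext (mul_inv_cancel₀ h0))
  constructor
  · intro h
    refine IsLocalRing.of_nonunits_add fun a b ha hb => ?_
    exact (hNU (a + b)).mp (h a b ((hNU a).mpr ha) ((hNU b).mpr hb))
  · intro h a b ha hb
    exact (hNU (⟨a, ha.1⟩ + ⟨b, hb.1⟩)).mpr
      (IsLocalRing.nonunits_add ((hNU ⟨a, ha.1⟩).mp ha) ((hNU ⟨b, hb.1⟩).mp hb))

theorem isLR_iff {R K : Type} [CommRing R] [Field K] [Algebra R K] {ι : Type} (h : ι → K)
    (B : Subring K) : D.IsLR R h B ↔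
      ∃ i, h i ≠ 0 ∧ IsLocalAt (Algebra.adjoin R (Set.range fun j => h j / h i)).toSubring B := by
  constructor
  · rintro ⟨hB, i, hi, -, h1, h2⟩
    refine ⟨i, hi, fun x hx => h1 ⟨x, hx⟩, (loc_iff B).mp hB, fun b hb => ?_⟩
    obtain ⟨a, s, hs, hab⟩ := h2 b hb
    exact ⟨(a : K), a.2, (s : K), s.2, hs.1, hs.2.2, (eq_div_iff hs.1).mpr hab⟩
  · rintro ⟨i, hi, h1, h2, h3⟩
    refine ⟨(loc_iff B).mpr h2, i, hi, fun j => h1 (Algebra.subset_adjoin ⟨j, rfl⟩),
      fun s => h1 s.2, fun b hb => ?_⟩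
    obtain ⟨a, ha, s, hs, hs0, hsi, rfl⟩ := h3 b hb
    exact ⟨⟨a, ha⟩, ⟨s, hs⟩, ⟨hs0, h1 hs, hsi⟩, div_mul_cancel₀ a hs0⟩

theorem isLocalization_away_uniformizer {O k : Type} [CommRing O] [IsDomain O]
    [IsDiscreteValuationRing O] [Field k] [Algebra O k] [IsFractionRing O k] {t : O}
    (ht : Irreducible t) : IsLocalization.Away t k := by
  have hinj := IsFractionRing.injective O k
  constructor
  constructor
  · rintro ⟨_, n, rfl⟩
    rw [map_pow]
    refine IsUnit.pow n (isUnit_iff_ne_zero.mpr ?_)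
    rw [Ne, map_eq_zero_iff _ hinj]
    exact ht.ne_zero
  · intro z
    obtain ⟨a, b, hb, rfl⟩ := IsFractionRing.div_surjective (A := O) z
    have hb0 : b ≠ 0 := nonZeroDivisors.ne_zero hb
    obtain ⟨n, u, hu⟩ := IsDiscreteValuationRing.eq_unit_mul_pow_irreducible hb0 ht
    refine ⟨(a * ((u⁻¹ : Oˣ) : O), ⟨t ^ n, n, rfl⟩), ?_⟩
    have hbk : algebraMap O k b ≠ 0 := by rwa [Ne, map_eq_zero_iff _ hinj]
    change algebraMap O k a / algebraMap O k b * algebraMap O k (t ^ n) =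
      algebraMap O k (a * ((u⁻¹ : Oˣ) : O))
    rw [div_mul_eq_mul_div, div_eq_iff hbk, ← map_mul, ← map_mul, hu]
    congr 1
    have : ((u⁻¹ : Oˣ) : O) * (u : O) = 1 := by simp
    calc a * t ^ n = a * (((u⁻¹ : Oˣ) : O) * (u : O)) * t ^ n := by rw [this, mul_one]
      _ = _ := by ring
  · intro x y hxy
    exact ⟨1, by rw [hinj hxy]⟩

section

attribute [local instance] MvPolynomial.gradedAlgebra

theorem hasGoodModel_coords {O k K : Type} [CommRing O] [IsDomain O] [IsDiscreteValuationRing O]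
    [Field k] [Algebra O k] [IsFractionRing O k] [Field K] [Algebra O K] [Algebra k K]
    [IsScalarTower O k K] {ι : Type} (h : ι → K) (hh : ∀ i, h i ≠ 0) (i : ι)
    (hfr : IsFractionRing (chart k h i) K) (hg : BadRed.HasGoodModel O k (PM.toSpec k h)) :
    ∃ (m : ℕ) (s : Fin (m + 1) → K), (∃ a, s a ≠ 0) ∧
      (∀ a, s a ≠ 0 → Algebra.Smooth O (Algebra.adjoin O (Set.range fun b => s b / s a))) ∧
      ∀ B : Subring K, D.IsLR k s B ↔ D.IsLR k h B := by
  have : Nonempty ι := ⟨i⟩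
  have hint : IsIntegral (PM k h) := (CK.pmCharts k h hh).isIntegral
  obtain ⟨Y, g, hsm, ⟨m, j, hj, hjg⟩, e, he⟩ := hg
  obtain ⟨t, ht⟩ := IsDiscreteValuationRing.exists_irreducible O
  have := isLocalization_away_uniformizer (k := k) ht
  let j' : Y ⟶ Proj (gr O m) := j
  have hj' : IsClosedImmersion j' := hj
  obtain ⟨s, hs0, hs1, hs2⟩ := model_coords (K := K) t (IsFractionRing.injective O k)
    (PM.toSpec k h) (ffK k h (hh i) hfr) (ffK_ffAlg k h (hh i) hfr) g j' hjg e he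
  refine ⟨m, s, hs0, hs1, fun B => ?_⟩
  rw [isLR_iff, isLR_iff, ← hs2, mem_locRings_PM]
  rfl

end

end DS

end MP55c1e7
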